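import Pool.Agent.Helper93.RS.ApV

/-!
TX-F4 (MP_464c42_nt). `caseV` (Helper93/RS/ApV.lean) with divisibility by `p ^ L` instead of `p`. (helper13)
-/

set_option autoImplicit false

open Pool.Agent.Helper87.Camp Pool.Agent.Helper10 Pool.Agent.Helper91.CPX

namespace Pool.Agent.Helper13.TX

open Pool.Agent.Helper24.TU Pool.Agent.Helper24.TV Pool.Agent.Helper87.RP Pool.Agent.Helper93.RS

/-- From a large `radM` of `v t` to a number `d`, many values not divisible by the `p ^ L`, `p ∣ d`, and all the others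
divisible by `d ^ L`. -/
theorem caseH {r : ℕ} (S : Finset ℕ) (M1 W D P L c : ℕ) (hP : P = Fintype.card (Finset (Fin r)))
    (hL : L ≤ P * M1) (v : Fin r → ℤ) (t : Fin r) (hW : 1 ≤ W) (hD : 1 ≤ D)
    (hfew : ∀ p : ℕ, p.Prime → p ∉ S → ∃ U : Finset (Fin r), c ≤ U.card ∧
      ∀ i ∈ U, ¬ (p : ℤ) ^ L ∣ v i)
    (h : D < radM S (P * M1) W (v t)) :
    ∃ U : Finset (Fin r), t ∉ U ∧ c ≤ U.card ∧ ∃ d : ℕ, 1 ≤ d ∧ d ≤ D * W ∧ Squarefree d ∧
      ((d ^ (P * M1) : ℕ) : ℤ) ∣ v t ∧ (∀ p ∈ d.primeFactors, p.Prime ∧ p ∉ S) ∧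
      (∀ i ∈ U, ∀ p ∈ d.primeFactors, ¬ (p : ℤ) ^ L ∣ v i) ∧
      (∀ i, i ∉ U → ((d ^ L : ℕ) : ℤ) ∣ v i) ∧ D ^ M1 ≤ d ^ (P * M1) := by
  classical
  obtain ⟨f, hf⟩ : ∃ f : ℕ → Finset (Fin r),
    f = fun p : ℕ => Finset.univ.filter (fun i => ¬ (p : ℤ) ^ L ∣ v i) := ⟨_, rfl⟩
  have hfm : ∀ p i, i ∈ f p ↔ ¬ (p : ℤ) ^ L ∣ v i := by
    intro p i
    rw [hf]
    simp
  have hfc : ∀ p : ℕ, p.Prime → p ∉ S → c ≤ (f p).card := by
    intro p hp hpS
    obtain ⟨U, h1, h2⟩ := hfew p hp hpS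
    have h3 : U ⊆ f p := fun i hi => (hfm p i).2 (h2 i hi)
    exact h1.trans (Finset.card_le_card h3)
  obtain ⟨d', hsq, hd1, hd2, hd3, hd4⟩ := bad_d S _ W D (v t) hW hD h
  have hprod : ∏ p ∈ d'.primeFactors, p = d' := Nat.prod_primeFactors_of_squarefree hsq
  obtain ⟨b, hb⟩ := pop d'.primeFactors f
  rw [hprod, ← hP] at hb
  obtain ⟨Q, hQ⟩ : ∃ Q, Q = d'.primeFactors.filter (fun p => f p = b) := ⟨_, rfl⟩
  rw [← hQ] at hb
  have hQm : ∀ p ∈ Q, p ∈ d'.primeFactors ∧ f p = b := by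
    intro p hp
    rw [hQ, Finset.mem_filter] at hp
    exact hp
  have hQpr : ∀ p ∈ Q, p.Prime := fun p hp => (hd4 p (hQm p hp).1).1
  obtain ⟨d, hd⟩ : ∃ d : ℕ, d = ∏ p ∈ Q, p := ⟨_, rfl⟩
  have hd0 : 1 ≤ d := by rw [hd]; exact Finset.prod_pos fun p hp => (hQpr p hp).pos
  have hQsub : Q ⊆ d'.primeFactors := fun p hp => (hQm p hp).1
  have hdd : d ∣ d' := by
    rw [hd]
    conv_rhs => rw [← hprod]
    exact Finset.prod_dvd_prod_of_subset _ _ _ hQsub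
  have hd'0 : 0 < d' := Nat.pos_of_ne_zero hsq.ne_zero
  have hdsq : Squarefree d := hsq.squarefree_of_dvd hdd
  have hpf : d.primeFactors = Q := by rw [hd]; exact pf_prod Q hQpr
  rw [← hd] at hb
  have hfin : ((d ^ (P * M1) : ℕ) : ℤ) ∣ v t := by
    have h1 : ((d ^ (P * M1) : ℕ) : ℤ) ∣ (d' : ℤ) ^ (P * M1) := by
      rw [Nat.cast_pow]
      exact pow_dvd_pow_of_dvd (Int.natCast_dvd_natCast.2 hdd) _
    exact h1.trans hd3
  have hpow : D ^ M1 ≤ d ^ (P * M1) := by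
    rw [pow_mul]
    exact Nat.pow_le_pow_left (hd1.trans hb) _
  -- a squarefree number whose prime factors `p` have `p ^ L ∣ x`
  have hdiv : ∀ x : ℤ, (∀ p ∈ d.primeFactors, (p : ℤ) ^ L ∣ x) → ((d ^ L : ℕ) : ℤ) ∣ x := by
    intro x hx
    have h1 : ((d ^ L : ℕ) : ℤ) = ∏ p ∈ d.primeFactors, (p : ℤ) ^ L := by
      rw [Finset.prod_pow, Nat.cast_pow]
      congr 1
      rw [← Nat.cast_prod, Nat.prod_primeFactors_of_squarefree hdsq]
    rw [h1]
    apply Finset.prod_dvd_of_coprime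
    · intro p hp q hq hpq
      have h2 : Nat.Coprime p q := (Nat.coprime_primes
        (Nat.prime_of_mem_primeFactors (Finset.mem_coe.1 hp))
        (Nat.prime_of_mem_primeFactors (Finset.mem_coe.1 hq))).2 hpq
      exact (Nat.isCoprime_iff_coprime.2 h2).pow
    · exact hx
  rcases Q.eq_empty_or_nonempty with h0 | ⟨p, hp⟩
  · -- `d = 1`; take any prime
    have hd1' : d = 1 := by rw [hd, h0, Finset.prod_empty]
    obtain ⟨p0, hp0⟩ : ∃ p0, p0 ∈ (v t).natAbs.primeFactors.filter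
        (fun p => p ∉ S ∧ p ≤ W ∧ p ^ (P * M1) ∣ (v t).natAbs) := by
      by_contra hne
      push Not at hne
      have h2 : radM S (P * M1) W (v t) = 1 := by
        unfold radM
        rw [Finset.eq_empty_of_forall_notMem hne, Finset.prod_empty]
      omega
    rw [Finset.mem_filter, Nat.mem_primeFactors] at hp0
    obtain ⟨⟨g1, g2, -⟩, g3, -, g4⟩ := hp0
    refine ⟨f p0, ?_, hfc p0 g1 g3, d, hd0, (Nat.le_of_dvd hd'0 hdd).trans hd2, hdsq, hfin,
      ?_, ?_, ?_, hpow⟩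
    · rw [hfm, not_not, ← Nat.cast_pow]
      exact Int.natCast_dvd.2 ((pow_dvd_pow p0 hL).trans g4)
    · intro p hp
      rw [hd1'] at hp
      simp at hp
    · intro i _ p hp
      rw [hd1'] at hp
      simp at hp
    · intro i _
      rw [hd1', one_pow, Nat.cast_one]
      exact one_dvd _
  · obtain ⟨g1, g2⟩ := hQm p hp
    obtain ⟨g3, g4, g5, g6⟩ := hd4 p g1
    refine ⟨b, ?_, ?_, d, hd0, (Nat.le_of_dvd hd'0 hdd).trans hd2, hdsq, hfin, ?_, ?_, ?_, hpow⟩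
    · rw [← g2, hfm, not_not]
      have h1 : (p : ℤ) ∣ (d' : ℤ) := Int.natCast_dvd_natCast.2 (Nat.dvd_of_mem_primeFactors g1)
      exact ((pow_dvd_pow (p : ℤ) hL).trans (pow_dvd_pow_of_dvd h1 _)).trans hd3
    · rw [← g2]
      exact hfc p g3 g4
    · intro p' hp'
      rw [hpf] at hp'
      have := hd4 p' (hQsub hp')
      exact ⟨this.1, this.2.1⟩
    · intro i hi p' hp'
      rw [hpf] at hp'
      rw [← (hQm p' hp').2, hfm] at hi
      exact hi
    · intro i hi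
      apply hdiv
      intro p' hp'
      rw [hpf] at hp'
      rw [← (hQm p' hp').2, hfm, not_not] at hi
      exact hi

end Pool.Agent.Helper13.TX
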